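import Pool.Agent.H512.BT.Main
import Pool.Graph.R_seed8.H119R2.Kp.D

set_option autoImplicit false

/-!
# At most `k` components, for graphs of bounded diameter (MP_257582_lc)

Let `p` be a prime and let `n = ∑ i, μ i * q i + ε`, where `ε ≤ 1`, `q i` (for `i < u`) are powers of `p`
with `q i > 1`, the `μ i` are positive, and `μ i = 1` if `q i = 2`; let `u + ε ≤ k` and `s ≤ n` with
`(n - s) + k + 2 ≤ q i + u + ε` for all `i`.  Put `M = ∑ i, μ i`, `R = max M 3`, `B = 2 M + ε - 1`.

1. Every monotone isomorphism-invariant property of graphs on `n` vertices is evasive if it contains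
   all graphs that have `k` components with together at least `s` vertices and all components of which
   have diameter at most `B` and radius at most `R`, and all its members have `k` components with
   together at least `s` vertices.  In particular the following properties are evasive: some `k` balls
   of radius `r` contain at least `s` vertices (for `r ≥ R`); some `k` sets of vertices, each with
   pairwise distances at most `r` in the graph, contain together at least `s` vertices (`r ≥ B`); and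
   if `s = n`: no `k + 1` vertices have pairwise distances larger than `r` (`r ≥ B`).
2. No condition on the arithmetic of `n`: let `w ≥ 1`, `c ≥ 1`, `4 w ≤ n ≤ 4 * 2 ^ (c w)` and `k = w + 1`,
   or `k = w + 2` if `n` is `3` modulo `4`.  Then all this is true with `s = n`, `R = w 2 ^ c + 1` and
   `B = 2 R`.  (So `R` can be a constant times `n ^ (1 / (k - 1))`, for fixed `k`, if `n` is not `3`
   modulo `4`.)
3. Let `n ≥ 4` and `k = 2` or `k = 3`.  Then all this is true with `s = n`, `R = 2 ⌊√n⌋`, `B = 2 R - 1`.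

Proof.  The vertex set consists, for every `i`, of `μ i` copies of the additive group of the field with
`q i` elements, and of `ε` fixed points; the group is generated by the translations (for every `i`, on
all `μ i` copies simultaneously) and an automorphism that acts on all the groups, transitively on the
nonzero elements of each one.  Graphs which are invariant under this group have components of diameter
at most `B` and radius at most `R`.  The signed sum over all invariant graphs of a function of the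
partition into components is a weighted sum over recursive configurations; if one of the copies is a
root without inner pairs then there are at least `q i + u - 1 + ε` components, too many.  All the other
configurations have the same sign `(-1) ^ M`, and the configuration in which, for all `i`, all copies
with index `i` are connected has the property.  So the signed sum is not zero; this contradicts the
relation of Kahn, Saks and Sturtevant for properties that are not evasive.
-/

namespace Pool.Agent.Results.MP_257582_lc.FewComponents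

open Finset
open Pool.Agent.H119R2.Kp (GP)

/-- Every decision strategy `σ` (the next pair to be queried depends only on the answers to the
queries made so far) needs all `n.choose 2` queries: there are two graphs that agree on the first
`n.choose 2 - 1` queried pairs, one with and one without `P`. -/
def Evasive {n : ℕ} (P : SimpleGraph (Fin n) → Prop) : Prop :=
  ∀ σ : Finset (Sym2 (Fin n)) → SimpleGraph (Fin n) → Sym2 (Fin n),
    (∀ (Q : Finset (Sym2 (Fin n))) (G H : SimpleGraph (Fin n)),
        (∀ e ∈ Q, (e ∈ G.edgeSet ↔ e ∈ H.edgeSet)) → σ Q G = σ Q H) →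
    ∃ G H : SimpleGraph (Fin n),
      (∀ e ∈ (fun Q : Finset (Sym2 (Fin n)) => insert (σ Q G) Q)^[n.choose 2 - 1]
            (∅ : Finset (Sym2 (Fin n))),
          (e ∈ G.edgeSet ↔ e ∈ H.edgeSet)) ∧ P G ∧ ¬ P H

/-- `P` is monotone. -/
def Monotone {n : ℕ} (P : SimpleGraph (Fin n) → Prop) : Prop :=
  ∀ G H : SimpleGraph (Fin n), G ≤ H → P G → P H

/-- `P` is invariant under isomorphisms. -/
def Invariant {n : ℕ} (P : SimpleGraph (Fin n) → Prop) : Prop :=
  ∀ (σ : Fin n ≃ Fin n) (G : SimpleGraph (Fin n)), P G → P (G.map σ.toEmbedding)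

/-- All components of `G` have diameter at most `B` and radius at most `R`. -/
def Tame {n : ℕ} (B R : ℕ) (G : SimpleGraph (Fin n)) : Prop :=
  (∀ u v, G.Reachable u v → G.edist u v ≤ B) ∧
    ∀ u, ∃ w, G.Reachable u w ∧ ∀ v, G.Reachable w v → G.edist w v ≤ R

/-- Some `k` components of `G` contain together at least `s` vertices. -/
def FewComps {n : ℕ} (k s : ℕ) (G : SimpleGraph (Fin n)) : Prop :=
  ∃ D : Finset (Fin n), D.card ≤ k ∧ s ≤ Nat.card {v // ∃ w ∈ D, G.Reachable w v}

/-- Some `k` balls of radius `r` contain together at least `s` vertices. -/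
def Balls {n : ℕ} (r k s : ℕ) (G : SimpleGraph (Fin n)) : Prop :=
  ∃ D : Finset (Fin n), D.card ≤ k ∧ s ≤ Nat.card {v // ∃ w ∈ D, G.edist w v ≤ r}

/-- Some `k` sets of vertices, each with pairwise distances at most `r` in `G`, contain together at
least `s` vertices (`f v = some i`: the vertex `v` is in the set `i`). -/
def Parts {n : ℕ} (r k s : ℕ) (G : SimpleGraph (Fin n)) : Prop :=
  ∃ f : Fin n → Option (Fin k), (∀ u v, f u = f v → f u ≠ none → G.edist u v ≤ r) ∧
    s ≤ Nat.card {v // f v ≠ none}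

/-- No `k + 1` vertices have pairwise distances larger than `r`. -/
def Packing {n : ℕ} (r k : ℕ) (G : SimpleGraph (Fin n)) : Prop :=
  ∀ S : Finset (Fin n), (∀ u ∈ S, ∀ v ∈ S, u ≠ v → (r : ℕ∞) < G.edist u v) → S.card ≤ k

/-- The results for the bounds `B` for the diameter and `R` for the radius. -/
def AllEvasive (n k s B R : ℕ) : Prop :=
  (∀ P : SimpleGraph (Fin n) → Prop, Monotone P → Invariant P →
    (∀ G, Tame B R G → FewComps k s G → P G) → (∀ G, P G → FewComps k s G) → Evasive P) ∧
  (∀ r : ℕ, R ≤ r → Evasive (Balls (n := n) r k s)) ∧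
  (∀ r : ℕ, B ≤ r → Evasive (Parts (n := n) r k s)) ∧
  (s = n → ∀ r : ℕ, B ≤ r → Evasive (Packing (n := n) r k))

theorem le_iff (x : ℕ∞) {m ε : ℕ} (hm : 1 ≤ m) :
    x + 1 ≤ ((2 * m + ε : ℕ) : ℕ∞) ↔ x ≤ ((2 * m + ε - 1 : ℕ) : ℕ∞) := by
  cases x with
  | top => simp
  | coe x =>
    constructor
    · intro h
      have h1 : x + 1 ≤ 2 * m + ε := by exact_mod_cast h
      have h2 : x ≤ 2 * m + ε - 1 := by omega
      exact_mod_cast h2
    · intro h
      have h1 : x ≤ 2 * m + ε - 1 := by exact_mod_cast h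
      have h2 : x + 1 ≤ 2 * m + ε := by omega
      exact_mod_cast h2

theorem core {p ε n u k s : ℕ} (μ a : Fin u → ℕ) (hp : p.Prime) (hu : 1 ≤ u) (hε : ε ≤ 1)
    (hμ : ∀ i, 1 ≤ μ i ∧ 1 ≤ a i ∧ (3 ≤ p ^ a i ∨ μ i = 1))
    (hn : n = ∑ i, μ i * p ^ a i + ε) (hk : u + ε ≤ k) (hs : s ≤ n)
    (hks : ∀ i, (n - s) + k + 2 ≤ p ^ a i + u + ε)
    {P : SimpleGraph (Fin n) → Prop} (hmono : Monotone P) (hiso : Invariant P)
    (hU : ∀ G, Tame (2 * ∑ i, μ i + ε - 1) (max (∑ i, μ i) 3) G → FewComps k s G → P G)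
    (hL : ∀ G, P G → FewComps k s G) : Evasive P := by
  intro σ hσ
  by_contra hcon
  have hdec : Pool.Agent.H119R2.Kp.Dec (n.choose 2 - 1)
      (fun S : Finset (Pool.Agent.H98R2.Ev.EV (Fin n)) =>
        P (Pool.Agent.H98R2.Ev.toG S)) := by
    refine Pool.Agent.H119R2.Kp.dec_of_strategy _ (fun G => P G) σ hσ fun G H hGH hPG => ?_
    by_contra hPH
    exact hcon ⟨G, H, hGH, hPG, hPH⟩
  have hGP : GP n (n.choose 2 - 1) P := ⟨hmono, hiso, hdec⟩
  have i0 : Fin u := ⟨0, hu⟩
  have hM : 1 ≤ ∑ i, μ i :=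
    (hμ i0).1.trans (Finset.single_le_sum (fun _ _ => Nat.zero_le _) (Finset.mem_univ i0))
  have hn2 : 2 ≤ n := by
    have h1 : μ i0 * p ^ a i0 ≤ ∑ i, μ i * p ^ a i :=
      Finset.single_le_sum (f := fun i => μ i * p ^ a i) (fun _ _ => Nat.zero_le _)
        (Finset.mem_univ i0)
    have h2 : 1 < p ^ a i0 := Nat.one_lt_pow (by have := (hμ i0).2.1; omega) hp.one_lt
    have h3 : 1 * 2 ≤ μ i0 * p ^ a i0 := Nat.mul_le_mul (hμ i0).1 h2
    omega
  have hch : 0 < n.choose 2 := Nat.choose_pos hn2
  have : Fact p.Prime := ⟨hp⟩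
  have : Nonempty (Fin u) := ⟨i0⟩
  refine Pool.Agent.H512.BT.few (p := p) μ a (fun i => (hμ i).1) (fun i => (hμ i).2.1)
    (fun i => (hμ i).2.2.imp id (fun h => h.le)) hε hn (by rwa [Fintype.card_fin]) hs
    (fun i => ?_) hGP (by omega) (fun G hG hR hC => ?_) (fun G hG => hL G hG)
  · have := hks i
    rw [Fintype.card_fin]
    omega
  · exact hU G ⟨fun u v huv => (le_iff _ hM).1 (hG u v huv), hR⟩ hC

theorem allEvasive {n k s B' R' B R : ℕ} (hB : B' ≤ B) (hR : R' ≤ R)
    (h : ∀ P : SimpleGraph (Fin n) → Prop, Monotone P → Invariant P →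
      (∀ G, Tame B' R' G → FewComps k s G → P G) → (∀ G, P G → FewComps k s G) → Evasive P) :
    AllEvasive n k s B R := by
  have hB' : (B' : ℕ∞) ≤ (B : ℕ∞) := by exact_mod_cast hB
  have hR' : (R' : ℕ∞) ≤ (R : ℕ∞) := by exact_mod_cast hR
  have hT : ∀ G : SimpleGraph (Fin n), Tame B' R' G → Tame B R G := fun G hG =>
    ⟨fun u v huv => (hG.1 u v huv).trans hB', fun u => by
      obtain ⟨w, h1, h2⟩ := hG.2 u
      exact ⟨w, h1, fun v hv => (h2 v hv).trans hR'⟩⟩
  refine ⟨fun P h1 h2 h3 h4 => h P h1 h2 (fun G hG => h3 G (hT G hG)) h4, ?_, ?_, ?_⟩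
  · intro r hr
    have hr' : (R : ℕ∞) ≤ (r : ℕ∞) := by exact_mod_cast hr
    refine h _ (fun G H hGH hG => Pool.Agent.H512.BD.BallC.mono hGH hG)
      (fun σ G hG => Pool.Agent.H512.BD.BallC.iso σ G hG) (fun G hG hC => ?_)
      (fun G hG => Pool.Agent.H512.BD.BallC.comps hG)
    refine Pool.Agent.H512.BD.Comps.ball (fun u => ?_) hC
    obtain ⟨w, h1, h2⟩ := (hT G hG).2 u
    exact ⟨w, h1, fun v hv => (h2 v hv).trans hr'⟩
  · intro r hr
    have hr' : (B : ℕ∞) ≤ (r : ℕ∞) := by exact_mod_cast hr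
    exact h _ (fun G H hGH hG => Pool.Agent.H512.BD.PartC.mono hGH hG)
      (fun σ G hG => Pool.Agent.H512.BD.PartC.iso σ G hG)
      (fun G hG hC => Pool.Agent.H512.BD.Comps.part
        (fun u v huv => ((hT G hG).1 u v huv).trans hr') hC)
      (fun G hG => Pool.Agent.H512.BD.PartC.comps hG)
  · classical
    rintro rfl r hr
    have hr' : (B : ℕ∞) ≤ (r : ℕ∞) := by exact_mod_cast hr
    refine h _ ?_ ?_ ?_ ?_
    · intro G H hGH hG S hS
      exact hG S fun u hu v hv huv =>
        (hS u hu v hv huv).trans_le (Pool.Agent.H512.BD.edist_mono hGH u v)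
    · intro σ G hG S hS
      have h1 := hG (S.map σ.symm.toEmbedding) (by
        intro u hu v hv huv
        obtain ⟨u', hu', rfl⟩ := Finset.mem_map.1 hu
        obtain ⟨v', hv', rfl⟩ := Finset.mem_map.1 hv
        have h2 := hS u' hu' v' hv' (fun h => huv (by rw [h]))
        show (r : ℕ∞) < G.edist (σ.symm u') (σ.symm v')
        rw [← Pool.Agent.H512.BD.map_edist σ, Equiv.apply_symm_apply, Equiv.apply_symm_apply]
        exact h2)
      rwa [Finset.card_map] at h1
    · rintro G hG ⟨D, h1, h2⟩ S hS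
      have hall : ∀ v, ∃ w ∈ D, G.Reachable w v := by
        rw [Nat.card_eq_fintype_card, Fintype.card_subtype] at h2
        have h3 : (univ.filter fun v => ∃ w ∈ D, G.Reachable w v) = univ := by
          rw [← Finset.card_eq_iff_eq_univ, Fintype.card_fin]
          refine le_antisymm ?_ h2
          exact (Finset.card_filter_le _ _).trans (by simp)
        intro v
        have h4 : v ∈ (univ : Finset (Fin s)) := Finset.mem_univ v
        rw [← h3, Finset.mem_filter] at h4
        exact h4.2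
      choose g hg hg' using hall
      refine (Finset.card_le_card_of_injOn g (fun u _ => hg u) ?_).trans h1
      intro u hu v hv huv
      by_contra hne
      have h3 := hS u hu v hv hne
      have h4 : G.Reachable u v := by
        have e1 := hg' u
        have e2 := hg' v
        have e3 : g u = g v := huv
        rw [e3] at e1
        exact e1.symm.trans e2
      exact absurd ((((hT G hG).1 u v h4)).trans hr') (not_le.2 h3)
    · intro G hG
      obtain ⟨S, hS, hmax⟩ := Finset.exists_max_image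
        (univ.powerset.filter fun S : Finset (Fin s) => ∀ u ∈ S, ∀ v ∈ S, u ≠ v →
          (r : ℕ∞) < G.edist u v) Finset.card
        ⟨∅, by simp⟩
      rw [Finset.mem_filter] at hS
      refine ⟨S, hG S hS.2, ?_⟩
      have hall : ∀ v, ∃ w ∈ S, G.Reachable w v := by
        intro v
        by_contra hcon
        push Not at hcon
        have hv : v ∉ S := fun h => hcon v h (SimpleGraph.Reachable.refl _)
        have htop : ∀ w ∈ S, G.edist w v = ⊤ := by
          intro w hw
          by_contra h5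
          exact hcon w hw (SimpleGraph.edist_ne_top_iff_reachable.1 h5)
        have h6 := hmax (insert v S) (by
          rw [Finset.mem_filter]
          refine ⟨by simp, ?_⟩
          intro x hx y hy hxy
          rw [Finset.mem_insert] at hx hy
          rcases hx with rfl | hx <;> rcases hy with rfl | hy
          · exact absurd rfl hxy
          · rw [SimpleGraph.edist_comm, htop y hy]
            exact ENat.natCast_lt_top r
          · rw [htop x hx]
            exact ENat.natCast_lt_top r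
          · exact hS.2 x hx y hy hxy)
        rw [Finset.card_insert_of_notMem hv] at h6
        omega
      rw [Nat.card_eq_fintype_card, Fintype.card_subtype,
        Finset.filter_true_of_mem fun v _ => hall v, Finset.card_univ, Fintype.card_fin]

/-- representation with `w` powers of `2` -/
theorem rep {c : ℕ} : ∀ w N : ℕ, w + 1 ≤ N → N ≤ 2 ^ (c * (w + 1)) →
    ∃ μ e : Fin (w + 1) → ℕ, (∀ i, 1 ≤ μ i) ∧ ∑ i, μ i * 2 ^ e i = N ∧
      ∑ i, μ i ≤ (w + 1) * 2 ^ c := by
  intro w
  induction w with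
  | zero =>
    intro N h1 h2
    refine ⟨fun _ => N, fun _ => 0, fun _ => h1, by simp, ?_⟩
    simpa using h2
  | succ w ih =>
    intro N h1 h2
    have hb : 0 < 2 ^ c := by positivity
    by_cases h : N ≤ 2 ^ c * (w + 1)
    · refine ⟨Fin.cons (N - (w + 1)) fun _ => 1, fun _ => 0, ?_, ?_, ?_⟩
      · intro i
        refine Fin.cases ?_ (fun i => ?_) i
        · show 1 ≤ N - (w + 1)
          omega
        · exact le_rfl
      · rw [Fin.sum_univ_succ]
        simp only [Fin.cons_zero, Fin.cons_succ, pow_zero, mul_one, Finset.sum_const,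
          Finset.card_univ, Fintype.card_fin, smul_eq_mul]
        omega
      · rw [Fin.sum_univ_succ]
        simp only [Fin.cons_zero, Fin.cons_succ, Finset.sum_const,
          Finset.card_univ, Fintype.card_fin, smul_eq_mul, mul_one]
        have : (w + 1 + 1) * 2 ^ c = 2 ^ c * (w + 1) + 2 ^ c := by ring
        omega
    · push Not at h
      have h3 : w + 1 ≤ (N - 1) / 2 ^ c := by
        rw [Nat.le_div_iff_mul_le hb, mul_comm]
        omega
      have h4 : (N - 1) / 2 ^ c ≤ 2 ^ (c * (w + 1)) := by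
        refine Nat.div_le_of_le_mul ?_
        rw [← pow_add]
        refine le_trans (Nat.sub_le _ _) (h2.trans_eq ?_)
        congr 1
        ring
      obtain ⟨μ, e, e1, e2, e3⟩ := ih _ h3 h4
      have h5 := Nat.div_add_mod (N - 1) (2 ^ c)
      have h6 := Nat.mod_lt (N - 1) hb
      refine ⟨Fin.cons ((N - 1) % 2 ^ c + 1) μ, Fin.cons 0 fun i => e i + c, ?_, ?_, ?_⟩
      · intro i
        refine Fin.cases ?_ (fun i => ?_) i
        · show 1 ≤ (N - 1) % 2 ^ c + 1
          omega
        · exact e1 i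
      · rw [Fin.sum_univ_succ]
        simp only [Fin.cons_zero, Fin.cons_succ, pow_zero, mul_one]
        have h7 : ∑ i, μ i * 2 ^ (e i + c) = 2 ^ c * ∑ i, μ i * 2 ^ e i := by
          rw [Finset.mul_sum]
          refine Finset.sum_congr rfl fun i _ => ?_
          rw [pow_add]
          ring
        rw [h7, e2]
        omega
      · rw [Fin.sum_univ_succ]
        simp only [Fin.cons_zero, Fin.cons_succ]
        have : (w + 1 + 1) * 2 ^ c = (w + 1) * 2 ^ c + 2 ^ c := by ring
        omega

theorem four_mul (w : ℕ) (μ e : Fin w → ℕ) {N : ℕ} (h : ∑ i, μ i * 2 ^ e i = N) :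
    ∑ i, μ i * 2 ^ (e i + 2) = 4 * N := by
  rw [← h, Finset.mul_sum]
  refine Finset.sum_congr rfl fun i _ => ?_
  rw [pow_add]
  ring

theorem four_le (e : ℕ) : 4 ≤ 2 ^ (e + 2) := by
  calc 4 = 2 ^ 2 := by norm_num
    _ ≤ 2 ^ (e + 2) := Nat.pow_le_pow_right (by norm_num) (by omega)

theorem every_n {n k w c : ℕ} (hw : 1 ≤ w) (hc : 1 ≤ c)
    (hk : k = if n % 4 = 3 then w + 2 else w + 1) (h1 : 4 * w ≤ n) (h2 : n ≤ 4 * 2 ^ (c * w)) :
    AllEvasive n k n (2 * (w * 2 ^ c + 1)) (w * 2 ^ c + 1) := by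
  obtain ⟨w, rfl⟩ : ∃ v, w = v + 1 := ⟨w - 1, by omega⟩
  have hb : 2 ≤ 2 ^ c := by
    calc 2 = 2 ^ 1 := (pow_one 2).symm
      _ ≤ 2 ^ c := Nat.pow_le_pow_right (by norm_num) hc
  have hM3 : 3 ≤ (w + 1) * 2 ^ c + 1 := by
    have : 1 * 2 ≤ (w + 1) * 2 ^ c := Nat.mul_le_mul (by omega) hb
    omega
  obtain ⟨μ, e, a1, a2, a3⟩ := rep (c := c) w (n / 4) (by omega) (by omega)
  have h7 := four_mul _ μ e a2
  by_cases hδ : n % 4 ≤ 1
  · rw [if_neg (by omega)] at hk
    have hsum : n = ∑ i, μ i * 2 ^ (e i + 2) + n % 4 := by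
      rw [h7]
      omega
    refine allEvasive (B' := 2 * ∑ i, μ i + n % 4 - 1) (R' := max (∑ i, μ i) 3) (by omega)
      (max_le (by omega) hM3) fun P p1 p2 p3 p4 =>
      core μ (fun i => e i + 2) Nat.prime_two (by omega) hδ
        (fun i => ⟨a1 i, by omega, Or.inl (by have := four_le (e i); omega)⟩) hsum (by omega)
        le_rfl (fun i => by have := four_le (e i); omega) p1 p2 p3 p4
  · have hμs : ∑ i, (Fin.cons 1 μ : Fin (w + 1 + 1) → ℕ) i = 1 + ∑ i, μ i := by
      rw [Fin.sum_univ_succ]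
      simp only [Fin.cons_zero, Fin.cons_succ]
    have hsum : n = ∑ i, (Fin.cons 1 μ : Fin (w + 1 + 1) → ℕ) i *
        2 ^ (Fin.cons 1 (fun i => e i + 2) : Fin (w + 1 + 1) → ℕ) i + (n % 4 - 2) := by
      rw [Fin.sum_univ_succ]
      simp only [Fin.cons_zero, Fin.cons_succ]
      rw [h7]
      omega
    have hk' : w + 1 + 1 + (n % 4 - 2) = k := by
      split_ifs at hk <;> omega
    refine allEvasive (B' := 2 * ∑ i, (Fin.cons 1 μ : Fin (w + 1 + 1) → ℕ) i + (n % 4 - 2) - 1)
      (R' := max (∑ i, (Fin.cons 1 μ : Fin (w + 1 + 1) → ℕ) i) 3) (by omega)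
      (max_le (by omega) hM3) fun P p1 p2 p3 p4 =>
      core _ _ Nat.prime_two (by omega) (by omega) (fun i => ?_) hsum (by omega) le_rfl
        (fun i => ?_) p1 p2 p3 p4
    · refine Fin.cases ?_ (fun i => ?_) i
      · simp
      · simp only [Fin.cons_succ]
        exact ⟨a1 i, by omega, Or.inl (by have := four_le (e i); omega)⟩
    · refine Fin.cases ?_ (fun i => ?_) i
      · simp only [Fin.cons_zero]
        omega
      · simp only [Fin.cons_succ]
        have := four_le (e i)
        omega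

/-- two digits: `N = x * p ^ e + y` -/
theorem two_digits {p N n : ℕ} (hp : 2 ≤ p) (hN : 2 ≤ N) (hn : N * p ≤ n) :
    ∃ x y e : ℕ, 1 ≤ x ∧ 1 ≤ y ∧ N = x * p ^ e + y ∧ x + y ≤ 2 * Nat.sqrt n := by
  by_cases h : p ≤ N - 1
  · obtain ⟨e, h1, h2⟩ : ∃ e, p ^ e * p ^ e ≤ N * p ∧ N < p * (p ^ e * p ^ e) := by
      have hex : ∃ e, N * p < p ^ (e + 1) * p ^ (e + 1) := by
        refine ⟨N * p, ?_⟩
        have h3 : N * p + 1 < p ^ (N * p + 1) := Nat.lt_pow_self (by omega)
        have h4 : 1 ≤ p ^ (N * p + 1) := by omega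
        nlinarith
      classical
      refine ⟨Nat.find hex, ?_, ?_⟩
      · by_cases h0 : Nat.find hex = 0
        · rw [h0]
          have : 2 * 2 ≤ N * p := Nat.mul_le_mul hN hp
          simp
          omega
        · obtain ⟨e, he⟩ : ∃ e, Nat.find hex = e + 1 := ⟨Nat.find hex - 1, by omega⟩
          have := Nat.find_min hex (m := e) (by omega)
          rw [he]
          omega
      · have h5 := Nat.find_spec hex
        have h6 : N * p < p * (p * (p ^ (Nat.find hex) * p ^ (Nat.find hex))) := by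
          calc N * p < p ^ (Nat.find hex + 1) * p ^ (Nat.find hex + 1) := h5
            _ = p * (p * (p ^ (Nat.find hex) * p ^ (Nat.find hex))) := by ring
        have h7 : p * N < p * (p * (p ^ (Nat.find hex) * p ^ (Nat.find hex))) := by
          rwa [mul_comm p N]
        exact Nat.lt_of_mul_lt_mul_left h7
    set T := p ^ e with hT
    have hT0 : 1 ≤ T := Nat.one_le_pow _ _ (by omega)
    have hTs : T ≤ Nat.sqrt n := Nat.le_sqrt.2 (h1.trans hn)
    have hTN : T ≤ N - 1 := by
      by_contra hcon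
      have h3 : N * N ≤ T * T := Nat.mul_le_mul (by omega) (by omega)
      have h4 : N * p ≤ N * (N - 1) := Nat.mul_le_mul le_rfl h
      have h5 : N * (N - 1) < N * N := Nat.mul_lt_mul_of_pos_left (by omega) (by omega)
      omega
    have hx : 1 ≤ (N - 1) / T := (Nat.one_le_div_iff (by omega)).2 hTN
    have hdm := Nat.div_add_mod (N - 1) T
    have hml := Nat.mod_lt (N - 1) (show 0 < T by omega)
    have hxs : (N - 1) / T ≤ Nat.sqrt n := by
      refine Nat.le_sqrt.2 (le_trans ?_ hn)
      set x := (N - 1) / T with hxd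
      have h3 : x * T ≤ N := by
        have : T * x ≤ N - 1 := by omega
        rw [mul_comm]
        omega
      have h4 : (x * x) * (T * T) ≤ (N * p) * (T * T) := by
        calc (x * x) * (T * T) = (x * T) * (x * T) := by ring
          _ ≤ N * N := Nat.mul_le_mul h3 h3
          _ ≤ N * (p * (T * T)) := Nat.mul_le_mul le_rfl h2.le
          _ = (N * p) * (T * T) := by ring
      exact Nat.le_of_mul_le_mul_right h4 (by positivity)
    refine ⟨(N - 1) / T, (N - 1) % T + 1, e, hx, by omega, ?_, by omega⟩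
    rw [← hT, mul_comm]
    omega
  · refine ⟨N - 1, 1, 0, by omega, le_rfl, by simp; omega, ?_⟩
    have h3 : N ≤ Nat.sqrt n := by
      refine Nat.le_sqrt.2 (le_trans ?_ hn)
      exact Nat.mul_le_mul le_rfl (by omega)
    omega

/-- an exponent `b` and a prime `p` with `p ^ b ≥ 3` and `n = N * p ^ b` -/
theorem exists_factor {n : ℕ} (hn : 4 ≤ n) :
    ∃ p b N : ℕ, p.Prime ∧ 1 ≤ b ∧ 3 ≤ p ^ b ∧ n = N * p ^ b := by
  by_cases h4 : 4 ∣ n
  · obtain ⟨N, rfl⟩ := h4
    exact ⟨2, 2, N, Nat.prime_two, by norm_num, by norm_num, by ring⟩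
  · have hodd : ∃ m l, n = l * m ∧ 3 ≤ m ∧ m % 2 = 1 := by
      by_cases h2 : n % 2 = 1
      · exact ⟨n, 1, by ring, by omega, h2⟩
      · refine ⟨n / 2, 2, by omega, ?_, ?_⟩
        · by_contra hcon
          have : n = 4 := by omega
          exact h4 ⟨1, by omega⟩
        · by_contra hcon
          exact h4 ⟨n / 4, by omega⟩
    obtain ⟨m, l, rfl, hm, hm2⟩ := hodd
    have hpm : m.minFac.Prime := Nat.minFac_prime (by omega)
    obtain ⟨r, hr⟩ := Nat.minFac_dvd m
    refine ⟨m.minFac, 1, l * r, hpm, le_rfl, ?_, ?_⟩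
    · have h2 : m.minFac ≠ 2 := by
        intro h
        rw [h] at hr
        omega
      have := hpm.two_le
      rw [pow_one]
      omega
    · calc l * m = l * (m.minFac * r) := by rw [← hr]
        _ = l * r * m.minFac ^ 1 := by ring

theorem two_or_three {n k : ℕ} (hn : 4 ≤ n) (hk : k = 2 ∨ k = 3) :
    AllEvasive n k n (4 * Nat.sqrt n - 1) (2 * Nat.sqrt n) := by
  obtain ⟨p, b, N, hp, hb, hq, hN⟩ := exists_factor hn
  have hs : 2 ≤ Nat.sqrt n := Nat.le_sqrt.2 (by omega)
  by_cases hN2 : 2 ≤ N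
  · have hpn : N * p ≤ n := by
      rw [hN]
      refine Nat.mul_le_mul le_rfl ?_
      calc p = p ^ 1 := (pow_one p).symm
        _ ≤ p ^ b := Nat.pow_le_pow_right hp.pos hb
    obtain ⟨x, y, e, hx, hy, hxy, hM⟩ := two_digits hp.two_le hN2 hpn
    have hqe : p ^ b ≤ p ^ (e + b) := Nat.pow_le_pow_right hp.pos (by omega)
    have hsum : n = ∑ i, (![x, y] : Fin 2 → ℕ) i * p ^ (![e + b, b] : Fin 2 → ℕ) i + 0 := by
      rw [Fin.sum_univ_two]
      simp only [Matrix.cons_val_zero, Matrix.cons_val_one]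
      rw [hN, hxy, pow_add]
      ring
    have hμs : ∑ i, (![x, y] : Fin 2 → ℕ) i = x + y := by
      rw [Fin.sum_univ_two]
      simp
    refine allEvasive (B' := 2 * ∑ i, (![x, y] : Fin 2 → ℕ) i + 0 - 1)
      (R' := max (∑ i, (![x, y] : Fin 2 → ℕ) i) 3) (by omega)
      (max_le (by omega) (by omega)) fun P p1 p2 p3 p4 =>
      core _ _ hp (by norm_num) (Nat.zero_le 1) (fun i => ?_) hsum (by omega) le_rfl
        (fun i => ?_) p1 p2 p3 p4
    · refine Fin.cases ?_ (fun i => ?_) i
      · exact ⟨hx, by show 1 ≤ e + b; omega, Or.inl (hq.trans hqe)⟩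
      · have : i = 0 := Subsingleton.elim _ _
        subst this
        exact ⟨hy, hb, Or.inl hq⟩
    · refine Fin.cases ?_ (fun i => ?_) i
      · show n - n + k + 2 ≤ p ^ (e + b) + 2 + 0
        omega
      · have : i = 0 := Subsingleton.elim _ _
        subst this
        show n - n + k + 2 ≤ p ^ b + 2 + 0
        omega
  · have hN1 : N = 1 := by
      rcases Nat.eq_zero_or_pos N with h | h
      · rw [h] at hN
        omega
      · omega
    subst hN1
    have hsum : n = ∑ i, (fun _ => 1 : Fin 1 → ℕ) i * p ^ (fun _ => b : Fin 1 → ℕ) i + 0 := by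
      simp
      omega
    refine allEvasive (B' := 2 * ∑ i, (fun _ => 1 : Fin 1 → ℕ) i + 0 - 1)
      (R' := max (∑ i, (fun _ => 1 : Fin 1 → ℕ) i) 3) (by simp; omega)
      (by simp; omega) fun P p1 p2 p3 p4 =>
      core _ _ hp le_rfl (Nat.zero_le 1) (fun i => ⟨le_rfl, hb, Or.inl hq⟩) hsum (by omega) le_rfl
        (fun i => ?_) p1 p2 p3 p4
    show n - n + k + 2 ≤ p ^ b + 1 + 0
    omega

theorem result :
    (∀ (p ε n u k s : ℕ) (μ a : Fin u → ℕ), p.Prime → 1 ≤ u → ε ≤ 1 →
      (∀ i, 1 ≤ μ i ∧ 1 ≤ a i ∧ (3 ≤ p ^ a i ∨ μ i = 1)) →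
      n = ∑ i, μ i * p ^ a i + ε → u + ε ≤ k → s ≤ n →
      (∀ i, (n - s) + k + 2 ≤ p ^ a i + u + ε) →
      AllEvasive n k s (2 * ∑ i, μ i + ε - 1) (max (∑ i, μ i) 3)) ∧
    (∀ n w c : ℕ, 1 ≤ w → 1 ≤ c → 4 * w ≤ n → n ≤ 4 * 2 ^ (c * w) →
      AllEvasive n (if n % 4 = 3 then w + 2 else w + 1) n (2 * (w * 2 ^ c + 1)) (w * 2 ^ c + 1)) ∧
    ∀ n : ℕ, 4 ≤ n → AllEvasive n 2 n (4 * Nat.sqrt n - 1) (2 * Nat.sqrt n) ∧
      AllEvasive n 3 n (4 * Nat.sqrt n - 1) (2 * Nat.sqrt n) :=
  ⟨fun _ _ _ _ _ _ μ a hp hu hε hμ hn hk hs hks =>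
    allEvasive le_rfl le_rfl fun _ h1 h2 h3 h4 => core μ a hp hu hε hμ hn hk hs hks h1 h2 h3 h4,
    fun _ _ _ hw hc h1 h2 => every_n hw hc rfl h1 h2,
    fun _ hn => ⟨two_or_three hn (Or.inl rfl), two_or_three hn (Or.inr rfl)⟩⟩

end Pool.Agent.Results.MP_257582_lc.FewComponents
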