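import Pool.Agent.H636.HD.Asm
import Pool.Graph.R_seed8.H98R2.Ev.T3

set_option autoImplicit false

/-!
# Graph properties closed under homomorphisms are evasive, for every `n` (MP_257582_lc)

A property `P` of graphs on `n` vertices is closed under homomorphisms if `P G` and the existence of
a homomorphism `G → H` imply `P H`. All these properties are monotone and isomorphism invariant.
Examples: not being `k`-colourable; having no homomorphism to a fixed graph (or to any graph of a
fixed family); circular, fractional, vector chromatic number greater than `r`; containing an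
odd cycle of length at most `g`; containing a complete graph with `k` vertices; admitting a
homomorphism from a member of a fixed family of graphs; in general `μ(G) > r` for any graph
parameter `μ` that is monotone under homomorphisms.  Dual examples: independence number,
clique covering number or Lovász number at most `r`.

Theorem: for every `n` every non-trivial property of graphs on `n` vertices that is closed
under homomorphisms, or whose dual is, is evasive. There are no exceptions.

Proof.  The starting point is the unfinished library project `Y577/EV`, which treats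
homomorphism-closed properties for `n ≥ 600` with an exceptional window of thresholds near powers of
two; its window of linear relations (`Win`), its treatment of small thresholds (`Small`) and of very
large thresholds (`Even`, `Odd`) are used. New is the treatment of all other thresholds and of
all `n < 600`.

Let `ω` be the number of the vertices of the largest complete graph without the property and
suppose that `P` is not evasive. The vertex set is cut into single points, blocks with
8, 32, 64 and 128 vertices (fields), and further blocks with 3, 5 or 17 vertices (at most one of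
each); the 2-group of the translations of the fields is normalised by a cyclic group that is
transitive on the pairs in each field and rotates the further blocks; on top of it acts the
group that is generated by the multiplication by a primitive root in each further block. So the number
of the invariant graphs without `P` is even. It is the value of a functional `f` on a commutative
ring of characteristic 2, in which the types of blocks live: with `x` the type of a single vertex
and `K_q` the type of the complete graph with `q` vertices, `f` vanishes on the products of powers of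
`x`, `x - K_8`, `x - K_32`, `x - K_64`, `x - K_128` and factors `x - K_q`, `q = 3, 5, 17`, of total
size `n`, where `K_(2 q) = K_q ^ 2 + K_q`, and `K_q = 0` for `q > ω`.
For a product of total size `m`, with at least two factors, the value of `f` is `0` if `m ≤ ω`,
`1` if `m = ω + 1`, and known for `m = ω + 2`.

For `n ≥ 368` the relations have closed forms (files `HC/*`): if `n - ω` is odd, then
`f (x ^ (ω + 1)) = 1` contradicts a relation without further block; if `n - ω` is even, then
`f (x ^ (ω + 2 - q) K_q) = 1`, which holds for `ω + 2 - q ≡ 0, 3 (mod 4)`, contradicts a relation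
with `q = 3` for `ω ≡ 0, 1 (mod 4)` and with `q = 5` for `ω ≡ 2, 3 (mod 4)`.
For `n < 368`, `n` not a prime power, a linear combination of the relations leaves a polynomial all
of whose terms have known values, with sum `1`. The combinations (1895 classes, each for all
`(n + k, ω + k)` in a range; 110 single pairs, where also the values at products of at most four
complete graphs are used; four special pairs, where the relations for groups of order `3^4`, `25^3`
and `13` are used) were found by computer and are checked by the kernel (files `HD/*`).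
Prime powers `n` are the theorem of Kahn, Saks and Sturtevant.

Parts of `HD/*` were proved by other agents of this run: the relations by helper215 (`RelE`) and
helper42 (`RelP`), the values by helper706 (`Val`), helper806 (`Mono`) and helper769 (`Kz`), prime
powers by helper297 (`Pp`).
-/

namespace Pool.Agent.Results.MP_257582_lc.HomomorphismClosed

open Finset Pool.Agent.H98R2.Ev Pool.Agent.TH410.KV Pool.Agent.Y577.EV Pool.Agent.H636.HC

/-- Every decision strategy `σ` (the next pair to be queried depends only on the answers to the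
queries made so far) needs all `n.choose 2` queries: there are two graphs that agree on the first
`n.choose 2 - 1` queried pairs, one with and one without `P`. -/
def Evasive {n : ℕ} (P : SimpleGraph (Fin n) → Prop) : Prop :=
  ∀ σ : Finset (Sym2 (Fin n)) → SimpleGraph (Fin n) → Sym2 (Fin n),
    (∀ (Q : Finset (Sym2 (Fin n))) (G H : SimpleGraph (Fin n)),
        (∀ e ∈ Q, (e ∈ G.edgeSet ↔ e ∈ H.edgeSet)) → σ Q G = σ Q H) →
    ∃ G H : SimpleGraph (Fin n),
      (∀ e ∈ (fun Q : Finset (Sym2 (Fin n)) => insert (σ Q G) Q)^[n.choose 2 - 1]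
            (∅ : Finset (Sym2 (Fin n))),
          (e ∈ G.edgeSet ↔ e ∈ H.edgeSet)) ∧ P G ∧ ¬ P H

/-- `P` is closed under homomorphisms: if `G` has `P` and there is a homomorphism from `G` to `H`,
then `H` has `P`. -/
def HomClosed {n : ℕ} (P : SimpleGraph (Fin n) → Prop) : Prop :=
  ∀ G H : SimpleGraph (Fin n), P G → Nonempty (G →g H) → P H

/-- The dual property of `P` is closed under homomorphisms: if `G` has `P` and there is a
homomorphism from the complement of `H` to the complement of `G`, then `H` has `P`. -/
def CoHomClosed {n : ℕ} (P : SimpleGraph (Fin n) → Prop) : Prop :=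
  ∀ G H : SimpleGraph (Fin n), P G → Nonempty (Hᶜ →g Gᶜ) → P H

/-- the family of the graphs with the property -/
def famOf {n : ℕ} (P : SimpleGraph (Fin n) → Prop) : Fam := {F | ∃ G, P G ∧ F = ⟨n, G⟩}

/-- the graph on `n` vertices whose edges are all pairs among the first `a` vertices -/
def Clique (n a : ℕ) : SimpleGraph (Fin n) where
  Adj x y := x ≠ y ∧ (x : ℕ) < a ∧ (y : ℕ) < a
  symm := ⟨fun _ _ h => ⟨h.1.symm, h.2.2, h.2.1⟩⟩
  loopless := ⟨fun _ h => h.1 rfl⟩

theorem HH_famOf {n : ℕ} {P : SimpleGraph (Fin n) → Prop} (hP : HomClosed P)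
    (G : SimpleGraph (Fin n)) : HH (famOf P) G ↔ P G := by
  constructor
  · rintro ⟨F, ⟨H, hH, rfl⟩, hφ⟩
    exact hP H G hH hφ
  · intro h
    exact ⟨⟨n, G⟩, ⟨G, h, rfl⟩, ⟨SimpleGraph.Hom.id⟩⟩

theorem to_clique {n a : ℕ} (ha : a ≤ n) {G : SimpleGraph (Fin n)} (h : G.Colorable a) :
    Nonempty (G →g Clique n a) := by
  obtain ⟨c⟩ := h
  refine ⟨⟨fun v => ⟨(c v : ℕ), lt_of_lt_of_le (c v).2 ha⟩, ?_⟩⟩
  intro v w hvw
  refine ⟨?_, (c v).2, (c w).2⟩
  intro he
  apply c.valid hvw
  rw [Fin.mk.injEq] at he
  exact Fin.ext he

theorem clique_colorable {n a : ℕ} (ha : 1 ≤ a) : (Clique n a).Colorable a := by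
  refine ⟨SimpleGraph.Coloring.mk (fun v => if h : (v : ℕ) < a then ⟨v, h⟩ else ⟨0, ha⟩) ?_⟩
  rintro v w ⟨h1, h2, h3⟩
  rw [dif_pos h2, dif_pos h3]
  intro he
  rw [Fin.mk.injEq] at he
  exact h1 (Fin.ext he)

/-- homomorphism-closed properties -/
theorem evasive_of_homClosed (n : ℕ) (P : SimpleGraph (Fin n) → Prop)
    (hP : HomClosed P) (h1 : ∃ G, P G) (h2 : ∃ G, ¬ P G) : Evasive P := by
  classical
  have hbot : ¬ P (Clique n 1) := by
    intro h
    obtain ⟨G, hG⟩ := h2
    refine hG (hP _ _ h ⟨⟨id, ?_⟩⟩)
    rintro v w ⟨h3, h4, h5⟩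
    exact absurd (Fin.ext (by omega)) h3
  have hbot0 : ¬ P (Clique n 0) := by
    intro h
    obtain ⟨G, hG⟩ := h2
    refine hG (hP _ _ h ⟨⟨id, ?_⟩⟩)
    rintro v w ⟨h3, h4, h5⟩
    omega
  have htop : P (Clique n n) := by
    obtain ⟨G, hG⟩ := h1
    refine hP _ _ hG ⟨⟨id, ?_⟩⟩
    intro v w h3
    exact ⟨h3.ne, v.2, w.2⟩
  have hex : ∃ a, P (Clique n a) := ⟨n, htop⟩
  obtain ⟨ω, hω⟩ : ∃ ω, Nat.find hex = ω + 1 := by
    refine ⟨Nat.find hex - 1, ?_⟩
    have : Nat.find hex ≠ 0 := by
      intro h3
      have h4 := Nat.find_spec hex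
      rw [h3] at h4
      exact hbot0 h4
    omega
  have hPω : P (Clique n (ω + 1)) := hω ▸ Nat.find_spec hex
  have hNω : ¬ P (Clique n ω) := Nat.find_min hex (by omega)
  have hω1 : 1 ≤ ω := by
    rcases Nat.eq_zero_or_pos ω with rfl | h
    · exact absurd hPω hbot
    · exact h
  have hωn : ω + 1 ≤ n := by
    rw [← hω]
    exact Nat.find_min' hex htop
  intro s hs
  by_contra hbad
  have hNE := ne_of_strategy n (by omega) P s hs hbad
  have hNE2 : NE (univ : Finset (EV (Fin n))) (fun S => ¬ HH (famOf P) (toG S)) := by
    have : (fun S : Finset (EV (Fin n)) => ¬ HH (famOf P) (toG S)) = (fun S => ¬ P (toG S)) := by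
      funext S
      rw [HH_famOf hP]
    rw [this]
    exact hNE
  refine Pool.Agent.H636.HD.main_all (𝓕 := famOf P) (ω := ω) hω1 hωn ?_ ?_ hNE2
  · rintro F ⟨G, hG, rfl⟩ hcol
    exact hNω (hP _ _ hG (to_clique (by omega) hcol))
  · exact ⟨⟨n, Clique n (ω + 1)⟩, ⟨_, hPω, rfl⟩, clique_colorable (by omega)⟩

section dual

variable {n : ℕ}

theorem compl_edge (G : SimpleGraph (Fin n)) (e : Sym2 (Fin n)) :
    e ∈ Gᶜ.edgeSet ↔ ¬ e.IsDiag ∧ e ∉ G.edgeSet := by
  induction e using Sym2.ind with
  | _ a b =>
    rw [SimpleGraph.mem_edgeSet, SimpleGraph.mem_edgeSet, SimpleGraph.compl_adj,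
      Sym2.mk_isDiag_iff]

theorem compl_agree {G H : SimpleGraph (Fin n)} {e : Sym2 (Fin n)}
    (h : e ∈ G.edgeSet ↔ e ∈ H.edgeSet) : e ∈ Gᶜ.edgeSet ↔ e ∈ Hᶜ.edgeSet := by
  rw [compl_edge, compl_edge, h]

/-- two graphs that agree on the pairs queried for the first one lead to the same queries -/
theorem queries_eq (σ : Finset (Sym2 (Fin n)) → SimpleGraph (Fin n) → Sym2 (Fin n))
    (hσ : ∀ (Q : Finset (Sym2 (Fin n))) (G H : SimpleGraph (Fin n)),
        (∀ e ∈ Q, (e ∈ G.edgeSet ↔ e ∈ H.edgeSet)) → σ Q G = σ Q H) (G H : SimpleGraph (Fin n))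
    (m : ℕ) (h : ∀ e ∈ (fun Q : Finset (Sym2 (Fin n)) => insert (σ Q G) Q)^[m]
            (∅ : Finset (Sym2 (Fin n))), (e ∈ G.edgeSet ↔ e ∈ H.edgeSet)) :
    (fun Q : Finset (Sym2 (Fin n)) => insert (σ Q H) Q)^[m] (∅ : Finset (Sym2 (Fin n))) =
      (fun Q : Finset (Sym2 (Fin n)) => insert (σ Q G) Q)^[m] (∅ : Finset (Sym2 (Fin n))) := by
  induction m with
  | zero => rfl
  | succ m ih =>
    rw [Function.iterate_succ_apply'] at h
    have h1 := ih (fun e he => h e (Finset.mem_insert_of_mem he))
    rw [Function.iterate_succ_apply', Function.iterate_succ_apply', h1]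
    have h2 := hσ _ G H (fun e he => h e (Finset.mem_insert_of_mem he))
    change insert (σ _ H) _ = insert (σ _ G) _
    rw [h2]

/-- evasiveness passes to the dual property -/
theorem evasive_dual {P : SimpleGraph (Fin n) → Prop} (h : Evasive (fun G => ¬ P Gᶜ)) :
    Evasive P := by
  intro σ hσ
  obtain ⟨G, H, h1, h2, h3⟩ := h (fun Q G => σ Q Gᶜ)
    (fun Q G H hGH => hσ Q Gᶜ Hᶜ (fun e he => compl_agree (hGH e he)))
  have h4 : ∀ e ∈ (fun Q : Finset (Sym2 (Fin n)) => insert (σ Q Gᶜ) Q)^[n.choose 2 - 1]
            (∅ : Finset (Sym2 (Fin n))), (e ∈ Gᶜ.edgeSet ↔ e ∈ Hᶜ.edgeSet) :=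
    fun e he => compl_agree (h1 e he)
  refine ⟨Hᶜ, Gᶜ, ?_, not_not.1 h3, h2⟩
  rw [queries_eq σ hσ Gᶜ Hᶜ _ h4]
  exact fun e he => (h4 e he).symm

theorem homClosed_dual {P : SimpleGraph (Fin n) → Prop} (h : CoHomClosed P) :
    HomClosed (fun G => ¬ P Gᶜ) := by
  intro G H hG hGH hH
  refine hG (h Hᶜ Gᶜ hH ?_)
  rw [compl_compl, compl_compl]
  exact hGH

end dual

/-- **Graph properties closed under homomorphisms are evasive, for every `n`.** -/
theorem result (n : ℕ) (P : SimpleGraph (Fin n) → Prop)
    (hP : HomClosed P ∨ CoHomClosed P) (h1 : ∃ G, P G) (h2 : ∃ G, ¬ P G) : Evasive P := by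
  rcases hP with hP | hP
  · exact evasive_of_homClosed n P hP h1 h2
  · refine evasive_dual (evasive_of_homClosed n _ (homClosed_dual hP) ?_ ?_)
    · obtain ⟨G, hG⟩ := h2
      refine ⟨Gᶜ, ?_⟩
      change ¬ P Gᶜᶜ
      rwa [compl_compl]
    · obtain ⟨G, hG⟩ := h1
      refine ⟨Gᶜ, ?_⟩
      change ¬ ¬ P Gᶜᶜ
      rw [compl_compl]
      exact not_not.2 hG

end Pool.Agent.Results.MP_257582_lc.HomomorphismClosed
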