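import Pool.Agent.H512.BD.Cor
import Pool.Graph.R_seed8.H119R2.Kp.D

set_option autoImplicit false

/-!
# Properties determined by the large components of graphs of bounded diameter (MP_257582_lc)

Let `q ≥ 3` be a prime power, `m ≥ 1` and `n = m q + ε` with `ε = 0` or `ε = 1`.  (So every `n ≥ 3` is
allowed: every such `n` has a divisor `q ≥ 3` that is a prime power.)  Call a graph tame if all its
components have diameter at most `2 m + ε - 1` and radius at most `max m 3`.

1. Criterion.  A monotone isomorphism-invariant property `P` of graphs on `n` vertices is evasive if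
   * for tame graphs `G`: if the disjoint union of complete graphs on the components of `G` has `P`,
     then `G` has `P`;
   * if a tame graph `G` has `P` and at least `q` of its components have at most `m` vertices, then `G`
     still has `P` after all edges in components with at most `m` vertices have been deleted;
   * `P` holds for the complete graph on `m q` vertices (together with `ε` isolated vertices), and
     fails for the union of `m - 1` complete graphs on `q` vertices and `q + ε` isolated vertices.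
2. So let `max m q < s ≤ m q`.  Every monotone isomorphism-invariant property that contains all tame
   graphs with a component with at least `s` vertices, and all members of which have such a component,
   is evasive.
3. In particular, for these `s` it is evasive whether some ball of radius `r` contains at least `s`
   vertices, for all `r ≥ max m 3`, and whether there are `s` vertices with pairwise distances at most
   `r`, for all `r ≥ 2 m + ε - 1`.

Proof.  The vertex set consists of `m` copies of the additive group `A` of the field with `q` elements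
and of `ε` fixed points; the group is the affine group of the field, which acts on all copies
simultaneously.  A geodesic in an invariant graph meets every copy at most twice, since all pairs of
different vertices of a copy have the same distance, and a shortest path to a copy meets every copy at
most once; it follows that invariant graphs are tame.  The signed sum of a function of the partition
into components over all invariant graphs is equal to a weighted sum over recursive configurations
(every copy is a root, with or without its inner pairs, or is attached to one earlier copy), since both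
sides agree for the functions `[π ≤ ρ]` (Moebius inversion on the lattice of all partitions).  If `P` is
not evasive the signed sum of its values vanishes (Kahn, Saks and Sturtevant).  The configurations in
which the elements of two copies lie in different small components cancel, and the value of the rest is
`(-1) ^ m` times the number of pairs of a recursive configuration for `m - 1` copies and of a way to add
the last copy for which `P` fails before and holds after it; this number is positive.
-/

namespace Pool.Agent.Results.MP_257582_lc.LargestComponent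

open Pool.Agent.H119R2.Kp (GP)

/-- Every decision strategy `σ` (the next pair to be queried depends only on the answers to the
queries made so far) needs all `n.choose 2` queries: there are two graphs that agree on the first
`n.choose 2 - 1` queried pairs, one with and one without `P`. -/
def Evasive {n : ℕ} (P : SimpleGraph (Fin n) → Prop) : Prop :=
  ∀ σ : Finset (Sym2 (Fin n)) → SimpleGraph (Fin n) → Sym2 (Fin n),
    (∀ (Q : Finset (Sym2 (Fin n))) (G H : SimpleGraph (Fin n)),
        (∀ e ∈ Q, (e ∈ G.edgeSet ↔ e ∈ H.edgeSet)) → σ Q G = σ Q H) →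
    ∃ G H : SimpleGraph (Fin n),
      (∀ e ∈ (fun Q : Finset (Sym2 (Fin n)) => insert (σ Q G) Q)^[n.choose 2 - 1]
            (∅ : Finset (Sym2 (Fin n))),
          (e ∈ G.edgeSet ↔ e ∈ H.edgeSet)) ∧ P G ∧ ¬ P H

/-- `P` is monotone. -/
def Monotone {n : ℕ} (P : SimpleGraph (Fin n) → Prop) : Prop :=
  ∀ G H : SimpleGraph (Fin n), G ≤ H → P G → P H

/-- `P` is invariant under isomorphisms. -/
def Invariant {n : ℕ} (P : SimpleGraph (Fin n) → Prop) : Prop :=
  ∀ (σ : Fin n ≃ Fin n) (G : SimpleGraph (Fin n)), P G → P (G.map σ.toEmbedding)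

/-- All components of `G` have diameter at most `B` and radius at most `R`. -/
def Tame {n : ℕ} (B R : ℕ) (G : SimpleGraph (Fin n)) : Prop :=
  (∀ u v, G.Reachable u v → G.edist u v ≤ B) ∧
    ∀ u, ∃ w, G.Reachable u w ∧ ∀ v, G.Reachable w v → G.edist w v ≤ R

/-- The disjoint union of the complete graphs on the components of `G`. -/
def Complete {n : ℕ} (G : SimpleGraph (Fin n)) : SimpleGraph (Fin n) where
  Adj u v := u ≠ v ∧ G.Reachable u v
  symm := ⟨fun _ _ h => ⟨h.1.symm, h.2.symm⟩⟩
  loopless := ⟨fun _ h => h.1 rfl⟩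

/-- The number of vertices of the component of `u`. -/
noncomputable def compSize {n : ℕ} (G : SimpleGraph (Fin n)) (u : Fin n) : ℕ :=
  Nat.card {w // G.Reachable u w}

/-- The graph `G` after all edges in components with at most `m` vertices have been deleted. -/
def LargePart {n : ℕ} (m : ℕ) (G : SimpleGraph (Fin n)) : SimpleGraph (Fin n) where
  Adj u v := G.Adj u v ∧ m < compSize G u ∧ m < compSize G v
  symm := ⟨fun _ _ h => ⟨h.1.symm, h.2.2, h.2.1⟩⟩
  loopless := ⟨fun _ h => h.1.ne rfl⟩

/-- At least `q` components of `G` have at most `m` vertices. -/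
def ManySmall {n : ℕ} (q m : ℕ) (G : SimpleGraph (Fin n)) : Prop :=
  ∃ S : Finset (Fin n), q ≤ S.card ∧ (∀ u ∈ S, compSize G u ≤ m) ∧
    ∀ u ∈ S, ∀ v ∈ S, G.Reachable u v → u = v

/-- The complete graph on the first `l` vertices, the other vertices are isolated. -/
def First (n l : ℕ) : SimpleGraph (Fin n) where
  Adj u v := u ≠ v ∧ u.1 < l ∧ v.1 < l
  symm := ⟨fun _ _ h => ⟨h.1.symm, h.2.2, h.2.1⟩⟩
  loopless := ⟨fun _ h => h.1 rfl⟩

/-- Complete graphs on the first `l` intervals of length `q`, the other vertices are isolated. -/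
def Blocks (n q l : ℕ) : SimpleGraph (Fin n) where
  Adj u v := u ≠ v ∧ u.1 / q = v.1 / q ∧ u.1 < l * q ∧ v.1 < l * q
  symm := ⟨fun _ _ h => ⟨h.1.symm, h.2.1.symm, h.2.2.2, h.2.2.1⟩⟩
  loopless := ⟨fun _ h => h.1 rfl⟩

/-- Some component has at least `s` vertices. -/
def LargeComp {n : ℕ} (s : ℕ) (G : SimpleGraph (Fin n)) : Prop := ∃ u, s ≤ compSize G u

/-- Some ball of radius `r` contains at least `s` vertices. -/
def LargeBall {n : ℕ} (r s : ℕ) (G : SimpleGraph (Fin n)) : Prop :=
  ∃ w, s ≤ Nat.card {v // G.edist w v ≤ r}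

/-- There are `s` vertices with pairwise distances at most `r` in `G`. -/
def CloseSet {n : ℕ} (r s : ℕ) (G : SimpleGraph (Fin n)) : Prop :=
  ∃ S : Finset (Fin n), s ≤ S.card ∧ ∀ u ∈ S, ∀ v ∈ S, G.edist u v ≤ r

theorem le_iff (x : ℕ∞) {m ε : ℕ} (hm : 1 ≤ m) :
    x + 1 ≤ ((2 * m + ε : ℕ) : ℕ∞) ↔ x ≤ ((2 * m + ε - 1 : ℕ) : ℕ∞) := by
  cases x with
  | top => simp
  | coe x =>
    constructor
    · intro h
      have h1 : x + 1 ≤ 2 * m + ε := by exact_mod_cast h
      have h2 : x ≤ 2 * m + ε - 1 := by omega
      exact_mod_cast h2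
    · intro h
      have h1 : x ≤ 2 * m + ε - 1 := by exact_mod_cast h
      have h2 : x + 1 ≤ 2 * m + ε := by omega
      exact_mod_cast h2

theorem core {p a m ε n : ℕ} (hp : p.Prime) (hq : 3 ≤ p ^ a) (hm : 1 ≤ m) (hε : ε ≤ 1)
    (hn : n = m * p ^ a + ε) {P : SimpleGraph (Fin n) → Prop} (hmono : Monotone P)
    (hiso : Invariant P)
    (h1 : ∀ G, Tame (2 * m + ε - 1) (max m 3) G → P (Complete G) → P G)
    (h2 : ∀ G, Tame (2 * m + ε - 1) (max m 3) G → P G → ManySmall (p ^ a) m G →
      P (LargePart m G))
    (h3 : P (First n (m * p ^ a))) (h4 : ¬ P (Blocks n (p ^ a) (m - 1))) : Evasive P := by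
  intro σ hσ
  by_contra hcon
  have hdec : Pool.Agent.H119R2.Kp.Dec (n.choose 2 - 1)
      (fun S : Finset (Pool.Agent.H98R2.Ev.EV (Fin n)) =>
        P (Pool.Agent.H98R2.Ev.toG S)) := by
    refine Pool.Agent.H119R2.Kp.dec_of_strategy _ (fun G => P G) σ hσ fun G H hGH hPG => ?_
    by_contra hPH
    exact hcon ⟨G, H, hGH, hPG, hPH⟩
  have hGP : GP n (n.choose 2 - 1) P := ⟨hmono, hiso, hdec⟩
  have hn2 : 2 ≤ n := by
    have : 1 * 3 ≤ m * p ^ a := Nat.mul_le_mul hm hq
    omega
  have hch : 0 < n.choose 2 := Nat.choose_pos hn2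
  have : Fact p.Prime := ⟨hp⟩
  obtain ⟨M, rfl⟩ : ∃ M, m = M + 1 := ⟨m - 1, by omega⟩
  have hD : ∀ G : SimpleGraph (Fin n), (∀ u v, G.Reachable u v →
      G.edist u v + 1 ≤ ((2 * (M + 1) + ε : ℕ) : ℕ∞)) →
      Pool.Agent.H512.BD.RadLE (max (M + 1) 3) G →
      Tame (2 * (M + 1) + ε - 1) (max (M + 1) 3) G :=
    fun G hG hR => ⟨fun u v huv => (le_iff _ hm).1 (hG u v huv), hR⟩
  exact Pool.Agent.H512.BD.criterion (p := p) (a := a) rfl hq hε hn hGP (by omega)
    (fun G hG hR => h1 G (hD G hG hR)) (fun G hG hR => h2 G (hD G hG hR)) h3 h4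

theorem large_iff {n s : ℕ} (hs : 1 ≤ s) (G : SimpleGraph (Fin n)) :
    LargeComp s G ↔ Pool.Agent.H512.BD.Comps 1 s G := by
  classical
  constructor
  · rintro ⟨u, hu⟩
    refine ⟨{u}, by simp, ?_⟩
    simp only [Finset.mem_singleton, exists_eq_left]
    exact hu
  · rintro ⟨D, h1, h2⟩
    rcases D.eq_empty_or_nonempty with rfl | ⟨w, hw⟩
    · simp at h2
      omega
    · have hD : D = {w} := by
        rw [Finset.card_le_one] at h1
        ext x
        rw [Finset.mem_singleton]
        exact ⟨fun hx => h1 x hx w hw, fun hx => hx ▸ hw⟩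
      subst hD
      simp only [Finset.mem_singleton, exists_eq_left] at h2
      exact ⟨w, h2⟩

theorem sandwich {p a m ε n : ℕ} (hp : p.Prime) (hq : 3 ≤ p ^ a) (hm : 1 ≤ m) (hε : ε ≤ 1)
    (hn : n = m * p ^ a + ε) {s : ℕ} (hs : s ≤ m * p ^ a) (hms : max m (p ^ a) < s)
    {P : SimpleGraph (Fin n) → Prop} (hmono : Monotone P) (hiso : Invariant P)
    (hU : ∀ G, Tame (2 * m + ε - 1) (max m 3) G → LargeComp s G → P G)
    (hL : ∀ G, P G → LargeComp s G) : Evasive P := by
  have hs1 : m < s := (le_max_left _ _).trans_lt hms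
  have hs2 : p ^ a < s := (le_max_right _ _).trans_lt hms
  have hs0 : 1 ≤ s := by omega
  simp only [large_iff hs0] at hU hL
  refine core hp hq hm hε hn hmono hiso ?_ ?_ ?_ ?_
  · intro G hG hP
    exact hU G hG (Pool.Agent.H512.BD.Comps.congr
      (fun u v => Pool.Agent.H512.BD.clo_reach) (hL _ hP))
  · intro G hG hP _
    refine hU _ ⟨?_, Pool.Agent.H512.BD.big_rad hG.2⟩
      (Pool.Agent.H512.BD.Comps_big hs1 (hL G hP))
    intro u v huv
    rw [← le_iff _ hm]
    exact Pool.Agent.H512.BD.big_diam (fun u v h => (le_iff _ hm).2 (hG.1 u v h)) huv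
  · have h1 : 1 ≤ 2 * m + ε - 1 := by omega
    have h2 : 1 ≤ max m 3 := le_max_of_le_left hm
    refine hU _ ⟨fun u v huv => ?_, Pool.Agent.H512.BD.diam_rad fun u v huv => ?_⟩ ?_
    · refine (Pool.Agent.H512.BD.first_diam huv).trans ?_
      exact_mod_cast h1
    · refine (Pool.Agent.H512.BD.first_diam huv).trans ?_
      exact_mod_cast h2
    · exact Pool.Agent.H512.BD.Comps_first hn hε (by omega) le_rfl (by omega) fun _ => hs
  · intro hP
    obtain ⟨M, rfl⟩ : ∃ M, m = M + 1 := ⟨m - 1, by omega⟩
    exact Pool.Agent.H512.BD.Comps_blocks hn (by omega) (Or.inr ⟨rfl, hs2⟩) (hL _ hP)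

theorem result (p a m ε n : ℕ) (hp : p.Prime) (hq : 3 ≤ p ^ a) (hm : 1 ≤ m) (hε : ε ≤ 1)
    (hn : n = m * p ^ a + ε) :
    (∀ P : SimpleGraph (Fin n) → Prop, Monotone P → Invariant P →
      (∀ G, Tame (2 * m + ε - 1) (max m 3) G → P (Complete G) → P G) →
      (∀ G, Tame (2 * m + ε - 1) (max m 3) G → P G → ManySmall (p ^ a) m G →
        P (LargePart m G)) →
      P (First n (m * p ^ a)) → ¬ P (Blocks n (p ^ a) (m - 1)) → Evasive P) ∧
    ∀ s : ℕ, max m (p ^ a) < s → s ≤ m * p ^ a →
      (∀ P : SimpleGraph (Fin n) → Prop, Monotone P → Invariant P →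
        (∀ G, Tame (2 * m + ε - 1) (max m 3) G → LargeComp s G → P G) →
        (∀ G, P G → LargeComp s G) → Evasive P) ∧
      (∀ r : ℕ, max m 3 ≤ r → Evasive (LargeBall (n := n) r s)) ∧
      ∀ r : ℕ, 2 * m + ε - 1 ≤ r → Evasive (CloseSet (n := n) r s) := by
  refine ⟨fun P h0 h1 h2 h3 h4 h5 => core hp hq hm hε hn h0 h1 h2 h3 h4 h5, ?_⟩
  intro s hms hs
  have hs0 : 1 ≤ s := by omega
  refine ⟨fun P h0 h1 h2 h3 => sandwich hp hq hm hε hn hs hms h0 h1 h2 h3, ?_, ?_⟩
  · intro r hr
    have hr' : ((max m 3 : ℕ) : ℕ∞) ≤ (r : ℕ∞) := by exact_mod_cast hr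
    refine sandwich hp hq hm hε hn hs hms ?_ ?_ ?_ ?_
    · rintro G H hGH ⟨w, hw⟩
      exact ⟨w, hw.trans (Pool.Agent.H512.BD.card_sub_le fun v hv =>
        (Pool.Agent.H512.BD.edist_mono hGH w v).trans hv)⟩
    · rintro σ G ⟨w, hw⟩
      refine ⟨σ w, hw.trans_eq (Pool.Agent.H512.BD.card_sub_eq σ fun v => ?_)⟩
      rw [Pool.Agent.H512.BD.map_edist]
    · rintro G ⟨-, hR⟩ ⟨u, hu⟩
      obtain ⟨w, hw, h1⟩ := hR u
      refine ⟨w, hu.trans (Pool.Agent.H512.BD.card_sub_le fun v hv => ?_)⟩
      exact (h1 v (hw.symm.trans hv)).trans hr'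
    · rintro G ⟨w, hw⟩
      refine ⟨w, hw.trans (Pool.Agent.H512.BD.card_sub_le fun v hv => ?_)⟩
      exact SimpleGraph.edist_ne_top_iff_reachable.1
        (ne_top_of_le_ne_top (ENat.natCast_ne_top r) hv)
  · intro r hr
    have hr' : ((2 * m + ε - 1 : ℕ) : ℕ∞) ≤ (r : ℕ∞) := by exact_mod_cast hr
    refine sandwich hp hq hm hε hn hs hms ?_ ?_ ?_ ?_
    · rintro G H hGH ⟨S, h1, h2⟩
      exact ⟨S, h1, fun u hu v hv =>
        (Pool.Agent.H512.BD.edist_mono hGH u v).trans (h2 u hu v hv)⟩
    · rintro σ G ⟨S, h1, h2⟩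
      refine ⟨S.map σ.toEmbedding, by rwa [Finset.card_map], ?_⟩
      intro u' hu' v' hv'
      obtain ⟨u, hu, rfl⟩ := Finset.mem_map.1 hu'
      obtain ⟨v, hv, rfl⟩ := Finset.mem_map.1 hv'
      show (G.map σ.toEmbedding).edist (σ u) (σ v) ≤ r
      rw [Pool.Agent.H512.BD.map_edist]
      exact h2 u hu v hv
    · classical
      rintro G ⟨hB, -⟩ ⟨u, hu⟩
      unfold compSize at hu
      rw [Nat.card_eq_fintype_card, Fintype.card_subtype] at hu
      refine ⟨_, hu, fun v hv w hw => ?_⟩
      rw [Finset.mem_filter] at hv hw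
      exact (hB v w (hv.2.symm.trans hw.2)).trans hr'
    · classical
      rintro G ⟨S, h1, h2⟩
      obtain ⟨u, hu⟩ : S.Nonempty := Finset.card_pos.1 (by omega)
      refine ⟨u, h1.trans ?_⟩
      unfold compSize
      rw [Nat.card_eq_fintype_card, Fintype.card_subtype]
      refine Finset.card_le_card fun v hv => ?_
      rw [Finset.mem_filter]
      exact ⟨Finset.mem_univ _, SimpleGraph.edist_ne_top_iff_reachable.1
        (ne_top_of_le_ne_top (ENat.natCast_ne_top r) (h2 u hu v hv))⟩

end Pool.Agent.Results.MP_257582_lc.LargestComponent
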