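import Pool.Agent.H512.BD.Cor
import Pool.Agent.H512.DT.Prim
import Pool.Graph.R_seed8.H119R2.Kp.D

set_option autoImplicit false

/-!
# Products with complete graphs decide evasiveness; bounded diameter (MP_257582_lc)

Let `p` be a prime, `q = r ^ k` a prime power, `ε = 0` or `1` and `n = p q + ε`. Let `H` be the subgroup
generated by a unit `u` modulo `p` such that the order of `± H / ± 1` is a power of a prime, and let `H = 1`,
or `ε = 0` and `p` not a divisor of `q - 1`. Let `Γ` be the circulant graph on `ZMod p` in which `s` and `t` are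
adjacent if `s - t` is contained in `± H` (the cycle of length `p` if `H = 1`, the complete graph if
`± H` contains all units). Let `P` be a monotone isomorphism-invariant property of graphs on `n`
vertices that holds for the tensor product of `Γ` and `K_q` and, if `ε = 1`, for the star with `n`
vertices.

1. If `P` holds for the cartesian product of `Γ` and `K_q` but not for the disjoint unions
   of `p` graphs `K_q` and of `q` graphs `K_p`, then `P` is evasive. If `P` holds for `p` graphs `K_q`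
   and for `q` graphs `Γ`, but not for the graph without edges, then `P` is evasive. (If `ε = 1`, an
   isolated vertex is added to all these graphs.)
2. Let `p, q ≥ 3`, `max p q < s ≤ p q` and `D ≥ (p + 1) / 2`; if `ε = 0`, `(p - 1) / 2` is a power of a prime
   (or `1`) and `p` does not divide `q - 1`, then `D ≥ 2` is sufficient. Every monotone
   isomorphism-invariant property that contains all graphs with a component with at least `s`
   vertices and all components of diameter at most `D`, and all members of which have a component with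
   at least `s` vertices, is evasive. In particular it is evasive whether some ball of radius `D` contains
   at least `s` vertices, and whether there are `s` vertices with pairwise distances at most `D`.

Proof.  The vertex set consists of `p` copies of the additive group `A` of the field with `q` elements
and of `ε` fixed points. If `H = 1` the group is the affine group of the field, acting on all copies
simultaneously. If `P` is not evasive, then the signed sum of its values over the invariant graphs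
vanishes (Kahn, Saks and Sturtevant). The cyclic permutation of the copies acts on the terms, so
modulo `p` only the graphs that are invariant under it count. For them the value of `P` is the same
as that of a combinatorial condition on the set of orbits (for the first criterion: it is neither
contained in the set of the pairs inside the copies nor in the set of the pairs with the same
element of `A`), which makes sense for all sets of orbits. The signed number of the sets with
this condition is `1` (or `-1` for the second criterion), and also equal modulo `p` to the sum over the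
invariant graphs, a contradiction. If `p` does not divide `q - 1`, then the group generated by the
translations and the product of the cyclic permutation of the copies and the multiplication by a
generator of the units of the field can be used instead, and the multiplications of `ZMod p` by the
elements of `H` act on the terms.
-/

namespace Pool.Agent.Results.MP_257582_lc.ProductGraphs

open Pool.Agent.H119R2.Kp (GP)

/-- Every decision strategy `σ` (the next pair to be queried depends only on the answers to the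
queries made so far) needs all `n.choose 2` queries: there are two graphs that agree on the first
`n.choose 2 - 1` queried pairs, one with and one without `P`. -/
def Evasive {n : ℕ} (P : SimpleGraph (Fin n) → Prop) : Prop :=
  ∀ σ : Finset (Sym2 (Fin n)) → SimpleGraph (Fin n) → Sym2 (Fin n),
    (∀ (Q : Finset (Sym2 (Fin n))) (G H : SimpleGraph (Fin n)),
        (∀ e ∈ Q, (e ∈ G.edgeSet ↔ e ∈ H.edgeSet)) → σ Q G = σ Q H) →
    ∃ G H : SimpleGraph (Fin n),
      (∀ e ∈ (fun Q : Finset (Sym2 (Fin n)) => insert (σ Q G) Q)^[n.choose 2 - 1]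
            (∅ : Finset (Sym2 (Fin n))),
          (e ∈ G.edgeSet ↔ e ∈ H.edgeSet)) ∧ P G ∧ ¬ P H

/-- `P` is monotone. -/
def Monotone {n : ℕ} (P : SimpleGraph (Fin n) → Prop) : Prop :=
  ∀ G H : SimpleGraph (Fin n), G ≤ H → P G → P H

/-- `P` is invariant under isomorphisms. -/
def Invariant {n : ℕ} (P : SimpleGraph (Fin n) → Prop) : Prop :=
  ∀ (σ : Fin n ≃ Fin n) (G : SimpleGraph (Fin n)), P G → P (G.map σ.toEmbedding)

/-- Adjacency in the circulant graph `Γ`: the difference of `s` and `t` is plus or minus a power of `u`. -/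
def Near {p : ℕ} (u : (ZMod p)ˣ) (s t : ZMod p) : Prop :=
  ∃ j : ℕ, s = t + (u : ZMod p) ^ j ∨ t = s + (u : ZMod p) ^ j

/-- The tensor product of `Γ` and `K_q`. The vertex `v < p q` has the coordinates `v / q` and `v % q`. -/
def Tensor (n q : ℕ) {p : ℕ} (u : (ZMod p)ˣ) : SimpleGraph (Fin n) where
  Adj v w := v.1 < p * q ∧ w.1 < p * q ∧ Near u ((v.1 / q : ℕ) : ZMod p) ((w.1 / q : ℕ) : ZMod p) ∧
    v.1 % q ≠ w.1 % q
  symm := ⟨fun _ _ h => ⟨h.2.1, h.1, h.2.2.1.imp fun _ => Or.symm, h.2.2.2.symm⟩⟩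
  loopless := ⟨fun _ h => h.2.2.2 rfl⟩

/-- The cartesian product of `Γ` and `K_q`. -/
def Box (n q : ℕ) {p : ℕ} (u : (ZMod p)ˣ) : SimpleGraph (Fin n) where
  Adj v w := v ≠ w ∧ v.1 < p * q ∧ w.1 < p * q ∧ (v.1 / q = w.1 / q ∨
    (Near u ((v.1 / q : ℕ) : ZMod p) ((w.1 / q : ℕ) : ZMod p) ∧ v.1 % q = w.1 % q))
  symm := ⟨fun _ _ h => ⟨h.1.symm, h.2.2.1, h.2.1, h.2.2.2.imp Eq.symm fun h1 =>
    ⟨h1.1.imp fun _ => Or.symm, h1.2.symm⟩⟩⟩
  loopless := ⟨fun _ h => h.1 rfl⟩

/-- The disjoint union of `p` complete graphs on `q` vertices. -/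
def Rows (n q p : ℕ) : SimpleGraph (Fin n) where
  Adj v w := v ≠ w ∧ v.1 < p * q ∧ w.1 < p * q ∧ v.1 / q = w.1 / q
  symm := ⟨fun _ _ h => ⟨h.1.symm, h.2.2.1, h.2.1, h.2.2.2.symm⟩⟩
  loopless := ⟨fun _ h => h.1 rfl⟩

/-- The disjoint union of `q` complete graphs on `p` vertices. -/
def Cols (n q p : ℕ) : SimpleGraph (Fin n) where
  Adj v w := v ≠ w ∧ v.1 < p * q ∧ w.1 < p * q ∧ v.1 % q = w.1 % q
  symm := ⟨fun _ _ h => ⟨h.1.symm, h.2.2.1, h.2.1, h.2.2.2.symm⟩⟩
  loopless := ⟨fun _ h => h.1 rfl⟩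

/-- The disjoint union of `q` copies of `Γ`. -/
def Copies (n q : ℕ) {p : ℕ} (u : (ZMod p)ˣ) : SimpleGraph (Fin n) where
  Adj v w := v ≠ w ∧ v.1 < p * q ∧ w.1 < p * q ∧
    Near u ((v.1 / q : ℕ) : ZMod p) ((w.1 / q : ℕ) : ZMod p) ∧ v.1 % q = w.1 % q
  symm := ⟨fun _ _ h => ⟨h.1.symm, h.2.2.1, h.2.1, h.2.2.2.1.imp fun _ => Or.symm,
    h.2.2.2.2.symm⟩⟩
  loopless := ⟨fun _ h => h.1 rfl⟩

/-- The star with `n` vertices, the center is the last vertex. -/
def Star (n : ℕ) : SimpleGraph (Fin n) where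
  Adj v w := v ≠ w ∧ (v.1 + 1 = n ∨ w.1 + 1 = n)
  symm := ⟨fun _ _ h => ⟨h.1.symm, h.2.symm⟩⟩
  loopless := ⟨fun _ h => h.1 rfl⟩

/-- All components of `G` have diameter at most `D`. -/
def Tame {n : ℕ} (D : ℕ) (G : SimpleGraph (Fin n)) : Prop :=
  ∀ u v, G.Reachable u v → G.edist u v ≤ D

/-- The number of vertices of the component of `u`. -/
noncomputable def compSize {n : ℕ} (G : SimpleGraph (Fin n)) (u : Fin n) : ℕ :=
  Nat.card {w // G.Reachable u w}

/-- Some component has at least `s` vertices. -/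
def LargeComp {n : ℕ} (s : ℕ) (G : SimpleGraph (Fin n)) : Prop := ∃ u, s ≤ compSize G u

/-- Some ball of radius `r` contains at least `s` vertices. -/
def LargeBall {n : ℕ} (r s : ℕ) (G : SimpleGraph (Fin n)) : Prop :=
  ∃ w, s ≤ Nat.card {v // G.edist w v ≤ r}

/-- There are `s` vertices with pairwise distances at most `r` in `G`. -/
def CloseSet {n : ℕ} (r s : ℕ) (G : SimpleGraph (Fin n)) : Prop :=
  ∃ S : Finset (Fin n), s ≤ S.card ∧ ∀ u ∈ S, ∀ v ∈ S, G.edist u v ≤ r

theorem gp_of_not {n : ℕ} {P : SimpleGraph (Fin n) → Prop} (hmono : Monotone P)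
    (hiso : Invariant P) (h : GP n (n.choose 2 - 1) P → False) : Evasive P := by
  intro σ hσ
  by_contra hcon
  have hdec : Pool.Agent.H119R2.Kp.Dec (n.choose 2 - 1)
      (fun S : Finset (Pool.Agent.H98R2.Ev.EV (Fin n)) =>
        P (Pool.Agent.H98R2.Ev.toG S)) := by
    refine Pool.Agent.H119R2.Kp.dec_of_strategy _ (fun G => P G) σ hσ fun G H hGH hPG => ?_
    by_contra hPH
    exact hcon ⟨G, H, hGH, hPG, hPH⟩
  exact h ⟨hmono, hiso, hdec⟩

theorem choose_lt {p q ε n : ℕ} (hp : 2 ≤ p) (hq : 2 ≤ q) (hn : n = p * q + ε) :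
    n.choose 2 - 1 < n.choose 2 := by
  have h1 : 2 * 2 ≤ p * q := Nat.mul_le_mul hp hq
  have : 0 < n.choose 2 := Nat.choose_pos (by omega)
  omega

theorem criteria {p r k q ε n : ℕ} (hp : p.Prime) (hr : r.Prime) (hk : k ≠ 0) (hq : q = r ^ k)
    (hε : ε ≤ 1) (hn : n = p * q + ε) (u : (ZMod p)ˣ) (l a : ℕ) (hl : l.Prime)
    (hu : u ^ l ^ a = 1 ∨ u ^ l ^ a = -1) (hc : u = 1 ∨ (ε = 0 ∧ Nat.Coprime p (q - 1)))
    {P : SimpleGraph (Fin n) → Prop} (hmono : Monotone P) (hiso : Invariant P)
    (h1 : P (Tensor n q u)) (h2 : ε = 1 → P (Star n)) :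
    (P (Box n q u) → ¬ P (Rows n q p) → ¬ P (Cols n q p) → Evasive P) ∧
    (P (Rows n q p) → P (Copies n q u) → ¬ P ⊥ → Evasive P) := by
  have : Fact p.Prime := ⟨hp⟩
  have : Fact r.Prime := ⟨hr⟩
  have : Fact l.Prime := ⟨hl⟩
  have hq2 : 2 ≤ q := by
    rw [hq]
    exact Nat.one_lt_pow hk hr.one_lt
  have hd := choose_lt hp.two_le hq2 hn
  constructor
  · intro h3 h4 h5
    refine gp_of_not hmono hiso fun hP => ?_
    rcases hc with rfl | ⟨rfl, hc⟩
    · exact Pool.Agent.H512.DT.cyc_A hq hk hε hn hP hd h1 h3 h2 h4 h5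
    · exact Pool.Agent.H512.DT.ext_A hq hk hn hP hd u hu hc h1 h3 h4 h5
  · intro h3 h4 h5
    refine gp_of_not hmono hiso fun hP => ?_
    rcases hc with rfl | ⟨rfl, hc⟩
    · exact Pool.Agent.H512.DT.cyc_B hq hk hε hn hP hd h1 h3 h4 h2 h5
    · exact Pool.Agent.H512.DT.ext_B hq hk hn hP hd u hu hc h1 h3 h4 h5

theorem sandwich {p r k q ε n : ℕ} (hp : p.Prime) (hp3 : 3 ≤ p) (hr : r.Prime) (hk : k ≠ 0)
    (hq : q = r ^ k) (hq3 : 3 ≤ q) (hε : ε ≤ 1) (hn : n = p * q + ε) {D s : ℕ}
    (hD : (p + 1) / 2 ≤ D ∨ (2 ≤ D ∧ ε = 0 ∧ Nat.Coprime p (q - 1) ∧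
      ∃ l a : ℕ, l.Prime ∧ p - 1 = 2 * l ^ a))
    (hs : max p q < s) (hs2 : s ≤ p * q)
    {P : SimpleGraph (Fin n) → Prop} (hmono : Monotone P) (hiso : Invariant P)
    (hU : ∀ G, Tame D G → LargeComp s G → P G)
    (hL : ∀ G, P G → LargeComp s G) : Evasive P := by
  have : Fact p.Prime := ⟨hp⟩
  have hsp : p < s := (le_max_left _ _).trans_lt hs
  have hsq : q < s := (le_max_right _ _).trans_lt hs
  have hpos : 0 < p * q := Nat.mul_pos (by omega) (by omega)
  have hD2 : 2 ≤ D := by
    rcases hD with h | h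
    · omega
    · exact h.1
  obtain ⟨K⟩ := Pool.Agent.H512.DT.exists_co (A := Fin q) hn (Fintype.card_fin q)
  have key : ∀ G : SimpleGraph (Fin n), (∀ u v, G.Adj u v → u.1 < p * q ∧ v.1 < p * q) →
      (∀ (z z' : ZMod p) (x y : Fin q), G.edist (Pool.Agent.H512.DT.vt K z x)
        (Pool.Agent.H512.DT.vt K z' y) ≤ (D : ℕ∞)) → P G := by
    intro G h1 h2
    have h3 : ∀ u v : Fin n, u.1 < p * q → v.1 < p * q → G.edist u v ≤ (D : ℕ∞) := by
      intro u v hu hv
      obtain ⟨z, x, rfl⟩ := Pool.Agent.H512.DT.vt_of K u hu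
      obtain ⟨z', y, rfl⟩ := Pool.Agent.H512.DT.vt_of K v hv
      exact h2 z z' x y
    exact hU G (Pool.Agent.H512.DT.first_tame h1 h3)
      ⟨⟨0, by omega⟩, hs2.trans (Pool.Agent.H512.DT.first_card (by omega) h3 _ hpos)⟩
  have hrows : ¬ P (Rows n q p) := by
    intro h
    obtain ⟨u, hu⟩ := hL _ h
    have h1 : compSize (Rows n q p) u ≤ q :=
      Pool.Agent.H512.DT.rows_card (n := n) (p := p) (by omega) u
    omega
  have hcols : ¬ P (Cols n q p) := by
    intro h
    obtain ⟨u, hu⟩ := hL _ h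
    have h1 : compSize (Cols n q p) u ≤ p :=
      Pool.Agent.H512.DT.cols_card (n := n) (by omega) u
    omega
  have hstar : ε = 1 → P (Star n) := by
    intro _
    have h1 : ∀ u v : Fin n, (Star n).edist u v ≤ (D : ℕ∞) := fun u v =>
      Pool.Agent.H512.DT.edist_le_of (Pool.Agent.H512.DT.star_dist u v) hD2
    refine hU _ (fun u v _ => h1 u v) ⟨⟨0, by omega⟩, ?_⟩
    refine (hs2.trans (by omega : p * q ≤ n)).trans
      (Pool.Agent.H512.DT.first_card le_rfl (fun u v _ _ => h1 u v) _ ?_)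
    show 0 < n
    omega
  rcases hD with hD | ⟨hD, rfl, hc, l, a, hl, hpl⟩
  · refine (criteria hp hr hk hq hε hn 1 2 0 Nat.prime_two (Or.inl (one_pow _)) (Or.inl rfl) hmono
      hiso ?_ hstar).1 ?_ hrows hcols
    · exact key _ (fun _ _ h => ⟨h.1, h.2.1⟩) fun z z' x y =>
        Pool.Agent.H512.DT.edist_le_of (Pool.Agent.H512.DT.tens_dist K hp3 hq3 z z' x y) hD
    · exact key _ (fun _ _ h => ⟨h.2.1, h.2.2.1⟩) fun z z' x y =>
        Pool.Agent.H512.DT.edist_le_of (Pool.Agent.H512.DT.box_dist K hp3 z z' x y) hD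
  · have : Fact l.Prime := ⟨hl⟩
    obtain ⟨u, hu, hN⟩ := Pool.Agent.H512.DT.prim hpl
    refine (criteria hp hr hk hq hε hn u l a hl (Or.inr hu) (Or.inr ⟨rfl, hc⟩) hmono
      hiso ?_ hstar).1 ?_ hrows hcols
    · exact key _ (fun _ _ h => ⟨h.1, h.2.1⟩) fun z z' x y =>
        Pool.Agent.H512.DT.edist_le_of (Pool.Agent.H512.DT.tens_two K hN hp3 hq3 z z' x y) hD
    · exact key _ (fun _ _ h => ⟨h.2.1, h.2.2.1⟩) fun z z' x y =>
        Pool.Agent.H512.DT.edist_le_of (Pool.Agent.H512.DT.box_two K hN z z' x y) hD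

theorem result (p r k q ε n : ℕ) (hp : p.Prime) (hr : r.Prime) (hk : k ≠ 0) (hq : q = r ^ k)
    (hε : ε ≤ 1) (hn : n = p * q + ε) :
    (∀ (u : (ZMod p)ˣ) (l a : ℕ), l.Prime → (u ^ l ^ a = 1 ∨ u ^ l ^ a = -1) →
      (u = 1 ∨ (ε = 0 ∧ Nat.Coprime p (q - 1))) →
      ∀ P : SimpleGraph (Fin n) → Prop, Monotone P → Invariant P →
        P (Tensor n q u) → (ε = 1 → P (Star n)) →
        (P (Box n q u) → ¬ P (Rows n q p) → ¬ P (Cols n q p) → Evasive P) ∧
        (P (Rows n q p) → P (Copies n q u) → ¬ P ⊥ → Evasive P)) ∧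
    (3 ≤ p → 3 ≤ q → ∀ D s : ℕ, ((p + 1) / 2 ≤ D ∨ (2 ≤ D ∧ ε = 0 ∧ Nat.Coprime p (q - 1) ∧
        ∃ l a : ℕ, l.Prime ∧ p - 1 = 2 * l ^ a)) → max p q < s → s ≤ p * q →
      (∀ P : SimpleGraph (Fin n) → Prop, Monotone P → Invariant P →
        (∀ G, Tame D G → LargeComp s G → P G) → (∀ G, P G → LargeComp s G) → Evasive P) ∧
      Evasive (LargeBall (n := n) D s) ∧ Evasive (CloseSet (n := n) D s)) := by
  refine ⟨fun u l a hl hu hc P h0 h1 h2 h3 => criteria hp hr hk hq hε hn u l a hl hu hc h0 h1 h2 h3,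
    ?_⟩
  intro hp3 hq3 D s hD hs hs2
  have hs0 : 1 ≤ s := by omega
  refine ⟨fun P h0 h1 h2 h3 => sandwich hp hp3 hr hk hq hq3 hε hn hD hs hs2 h0 h1 h2 h3, ?_, ?_⟩
  · refine sandwich hp hp3 hr hk hq hq3 hε hn hD hs hs2 ?_ ?_ ?_ ?_
    · rintro G H hGH ⟨w, hw⟩
      exact ⟨w, hw.trans (Pool.Agent.H512.BD.card_sub_le fun v hv =>
        (Pool.Agent.H512.BD.edist_mono hGH w v).trans hv)⟩
    · rintro σ G ⟨w, hw⟩
      refine ⟨σ w, hw.trans_eq (Pool.Agent.H512.BD.card_sub_eq σ fun v => ?_)⟩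
      rw [Pool.Agent.H512.BD.map_edist]
    · rintro G hT ⟨u, hu⟩
      exact ⟨u, hu.trans (Pool.Agent.H512.BD.card_sub_le fun v hv => hT u v hv)⟩
    · rintro G ⟨w, hw⟩
      refine ⟨w, hw.trans (Pool.Agent.H512.BD.card_sub_le fun v hv => ?_)⟩
      exact SimpleGraph.edist_ne_top_iff_reachable.1
        (ne_top_of_le_ne_top (ENat.natCast_ne_top D) hv)
  · refine sandwich hp hp3 hr hk hq hq3 hε hn hD hs hs2 ?_ ?_ ?_ ?_
    · rintro G H hGH ⟨S, h1, h2⟩
      exact ⟨S, h1, fun u hu v hv =>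
        (Pool.Agent.H512.BD.edist_mono hGH u v).trans (h2 u hu v hv)⟩
    · rintro σ G ⟨S, h1, h2⟩
      refine ⟨S.map σ.toEmbedding, by rwa [Finset.card_map], ?_⟩
      intro u' hu' v' hv'
      obtain ⟨u, hu, rfl⟩ := Finset.mem_map.1 hu'
      obtain ⟨v, hv, rfl⟩ := Finset.mem_map.1 hv'
      show (G.map σ.toEmbedding).edist (σ u) (σ v) ≤ D
      rw [Pool.Agent.H512.BD.map_edist]
      exact h2 u hu v hv
    · classical
      rintro G hT ⟨u, hu⟩
      unfold compSize at hu
      rw [Nat.card_eq_fintype_card, Fintype.card_subtype] at hu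
      refine ⟨_, hu, fun v hv w hw => ?_⟩
      rw [Finset.mem_filter] at hv hw
      exact hT v w (hv.2.symm.trans hw.2)
    · classical
      rintro G ⟨S, h1, h2⟩
      obtain ⟨u, hu⟩ : S.Nonempty := Finset.card_pos.1 (by omega)
      refine ⟨u, h1.trans ?_⟩
      unfold compSize
      rw [Nat.card_eq_fintype_card, Fintype.card_subtype]
      refine Finset.card_le_card fun v hv => ?_
      rw [Finset.mem_filter]
      exact ⟨Finset.mem_univ _, SimpleGraph.edist_ne_top_iff_reachable.1
        (ne_top_of_le_ne_top (ENat.natCast_ne_top D) (h2 u hu v hv))⟩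

end Pool.Agent.Results.MP_257582_lc.ProductGraphs
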